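import Mathlib
import Pool.Agent.Results.MP_c2648d_gt.ThreeToOne
import Pool.Agent.Helper300.Cont

/-!
# A product of two continua that is not lambda-connected (MP_3d59a4_gt, Q1)

A hereditarily decomposable continuum cannot be mapped onto a nondegenerate indecomposable
continuum. Hence, if `X` is hereditarily indecomposable, no hereditarily decomposable subcontinuum
of `X × Y` contains two points with different first coordinates.
-/

open Set Topology

namespace Pool.Agent.Results.MP_3d59a4_gt.NotLambda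

/-- `K` is a subcontinuum of the space `X`: a nonempty compact connected subset. -/
def IsSubcontinuum {X : Type*} [TopologicalSpace X] (K : Set X) : Prop :=
  IsCompact K ∧ IsConnected K

/-- `K` is decomposable: it is the union of two proper subcontinua. -/
def IsDecomposable {X : Type*} [TopologicalSpace X] (K : Set X) : Prop :=
  ∃ A B : Set X, IsSubcontinuum A ∧ IsSubcontinuum B ∧ A ≠ K ∧ B ≠ K ∧ A ∪ B = K

/-- `K` is hereditarily decomposable: every nondegenerate subcontinuum of `K` is decomposable. -/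
def IsHereditarilyDecomposable {X : Type*} [TopologicalSpace X] (K : Set X) : Prop :=
  ∀ L : Set X, L ⊆ K → IsSubcontinuum L → L.Nontrivial → IsDecomposable L

/-- `X` is lambda-connected: any two points lie in a hereditarily decomposable subcontinuum. -/
def LambdaConnected (X : Type*) [TopologicalSpace X] : Prop :=
  ∀ p q : X, ∃ K : Set X, IsSubcontinuum K ∧ IsHereditarilyDecomposable K ∧ p ∈ K ∧ q ∈ K

/-- A hereditarily decomposable continuum does not map onto a nondegenerate indecomposable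
continuum. -/
theorem no_map {X Z : Type*} [TopologicalSpace X] [T2Space X] [TopologicalSpace Z] [T2Space Z]
    {K : Set Z} (hK : IsSubcontinuum K) (hd : IsHereditarilyDecomposable K) (f : Z → X)
    (hf : Continuous f) (hnt : (f '' K).Nontrivial) : IsDecomposable (f '' K) := by
  classical
  -- a minimal subcontinuum of `K` that is mapped onto `f '' K`
  let 𝒮 : Set (Set Z) := {L | L ⊆ K ∧ IsSubcontinuum L ∧ f '' L = f '' K}
  have hKS : K ∈ 𝒮 := ⟨Subset.rfl, hK, rfl⟩
  obtain ⟨L, hLK, hL⟩ : ∃ L, L ⊆ K ∧ Minimal (· ∈ 𝒮) L := by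
    refine zorn_superset_nonempty 𝒮 ?_ K hKS
    intro c hc hchain hne
    have hdir : ∀ A ∈ c, ∀ B ∈ c, ∃ C ∈ c, C ⊆ A ∧ C ⊆ B := by
      intro A hA B hB
      rcases hchain.total hA hB with h | h
      · exact ⟨A, hA, Subset.rfl, h⟩
      · exact ⟨B, hB, h, Subset.rfl⟩
    obtain ⟨L0, hL0⟩ := hne
    have hcl : ∀ L ∈ c, IsClosed L := fun L hL => (hc hL).2.1.1.isClosed
    have hcomp : IsCompact (⋂₀ c) :=
      (hc hL0).2.1.1.of_isClosed_subset (isClosed_sInter hcl) (sInter_subset_of_mem hL0)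
    have hfib : ∀ y ∈ f '' K, ((⋂₀ c) ∩ f ⁻¹' {y}).Nonempty := by
      intro y hy
      have hclf : IsClosed (f ⁻¹' {y}) := isClosed_singleton.preimage hf
      haveI : Nonempty c := ⟨⟨L0, hL0⟩⟩
      have h1 : (⋂ L : c, ((L : Set Z) ∩ f ⁻¹' {y})).Nonempty := by
        refine IsCompact.nonempty_iInter_of_directed_nonempty_isCompact_isClosed
          (fun L : c => (L : Set Z) ∩ f ⁻¹' {y}) ?_ ?_ ?_ ?_
        · intro A B
          obtain ⟨C, hC, hCA, hCB⟩ := hdir A.1 A.2 B.1 B.2
          exact ⟨⟨C, hC⟩, inter_subset_inter_left _ hCA, inter_subset_inter_left _ hCB⟩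
        · intro L
          have : y ∈ f '' (L : Set Z) := by rw [(hc L.2).2.2]; exact hy
          obtain ⟨x, hx, hxy⟩ := this
          exact ⟨x, hx, hxy⟩
        · intro L
          exact (hc L.2).2.1.1.inter_right hclf
        · intro L
          exact (hcl L.1 L.2).inter hclf
      obtain ⟨x, hx⟩ := h1
      rw [mem_iInter] at hx
      refine ⟨x, ?_, (hx ⟨L0, hL0⟩).2⟩
      rw [mem_sInter]
      exact fun L hL => (hx ⟨L, hL⟩).1
    refine ⟨⋂₀ c, ⟨(sInter_subset_of_mem hL0).trans (hc hL0).1, ⟨hcomp, ?_, ?_⟩, ?_⟩,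
      fun L hL => sInter_subset_of_mem hL⟩
    · obtain ⟨y, hy, -⟩ := hnt
      obtain ⟨x, hx, -⟩ := hfib y hy
      exact ⟨x, hx⟩
    · exact Pool.Agent.Helper300.Cont.isPreconnected_sInter hchain ⟨L0, hL0⟩
        (fun s hs => (hc hs).2.1.1) (fun s hs => (hc hs).2.1.2.isPreconnected)
    · apply Subset.antisymm
      · exact image_mono ((sInter_subset_of_mem hL0).trans (hc hL0).1)
      · intro y hy
        obtain ⟨x, hx, hxy⟩ := hfib y hy
        exact ⟨x, hx, hxy⟩
  have hLS := hL.prop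
  have hLnt : L.Nontrivial := by
    have : (f '' L).Nontrivial := by rw [hLS.2.2]; exact hnt
    obtain ⟨_, ⟨a, ha, rfl⟩, _, ⟨b, hb, rfl⟩, hab⟩ := this
    exact ⟨a, ha, b, hb, fun h => hab (congrArg f h)⟩
  obtain ⟨A, B, hA, hB, hAL, hBL, hAB⟩ := hd L hLK hLS.2.1 hLnt
  have key : ∀ C : Set Z, IsSubcontinuum C → C ⊆ L → C ≠ L → f '' C ≠ f '' K := by
    intro C hC hCL hne h
    exact hne (Subset.antisymm hCL (hL.le_of_le ⟨hCL.trans hLK, hC, h⟩ hCL))
  have hAL' : A ⊆ L := hAB ▸ subset_union_left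
  have hBL' : B ⊆ L := hAB ▸ subset_union_right
  refine ⟨f '' A, f '' B, ⟨hA.1.image hf, hA.2.image f hf.continuousOn⟩,
    ⟨hB.1.image hf, hB.2.image f hf.continuousOn⟩, key A hA hAL' hAL, key B hB hBL' hBL, ?_⟩
  rw [← image_union, hAB, hLS.2.2]

/-- **Negative answer to Q1 of MP_3d59a4_gt.** There is a nondegenerate continuum `X` such that for
no continuum `Y` the product `X × Y` is lambda-connected. -/
theorem result : ∃ (X : Type) (_ : MetricSpace X), CompactSpace X ∧ ConnectedSpace X ∧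
    Nontrivial X ∧ ∀ (Y : Type) [MetricSpace Y] [CompactSpace Y] [ConnectedSpace Y],
      ¬ LambdaConnected (X × Y) := by
  obtain ⟨X, -, mX, -, -, cX, coX, nX, hi, -⟩ := Pool.Agent.Results.MP_c2648d_gt.ThreeToOne.result
  refine ⟨X, mX, cX, coX, nX, ?_⟩
  intro Y _ _ _ hlam
  obtain ⟨x, x', hx⟩ := exists_pair_ne X
  obtain ⟨y⟩ : Nonempty Y := inferInstance
  obtain ⟨K, hK, hd, hp, hq⟩ := hlam (x, y) (x', y)
  have hnt : (Prod.fst '' K).Nontrivial := ⟨x, ⟨_, hp, rfl⟩, x', ⟨_, hq, rfl⟩, hx⟩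
  obtain ⟨A, B, hA, hB, hAK, hBK, hAB⟩ := no_map hK hd Prod.fst continuous_fst hnt
  refine hi (Prod.fst '' K) ⟨⟨x, ⟨_, hp, rfl⟩⟩, hK.1.image continuous_fst,
    hK.2.image _ continuous_fst.continuousOn⟩ ⟨A, B, ⟨hA.2.nonempty, hA.1, hA.2⟩,
    ⟨hB.2.nonempty, hB.1, hB.2⟩, hAK, hBK, hAB⟩

end Pool.Agent.Results.MP_3d59a4_gt.NotLambda
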